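import Pool.Agent.MNE.StmtsB

set_option autoImplicit false

namespace Pool.Agent.MNE.H69

open Finset

theorem min_ : MinStmt := by
  intro ι J _ _ _ a h
  classical
  have hli : LinearIndependent ℝ a := by
    rw [Fintype.linearIndependent_iff]
    intro c hc i
    have hc0 : c = 0 := by
      apply h
      intro j
      have := congrFun hc j
      simpa [Finset.sum_apply, Pi.smul_apply, smul_eq_mul] using this
    rw [hc0]; rfl
  have hrank : (Matrix.of a).rank = Fintype.card ι := by
    have := LinearIndependent.rank_matrix (M := Matrix.of a) (by simpa using hli)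
    exact this
  obtain ⟨κ, f, hfinj, hspan, hind⟩ :=
    exists_linearIndependent' ℝ (fun j : J => fun i : ι => a i j)
  haveI : Finite κ := Finite.of_injective f hfinj
  haveI : Fintype κ := Fintype.ofFinite κ
  have hcard : Fintype.card κ = Fintype.card ι := by
    rw [Matrix.rank_eq_finrank_span_cols] at hrank
    rw [← hrank]
    have h1 := finrank_span_eq_card hind
    rw [← h1, hspan]
    rfl
  let e : ι ≃ κ := Fintype.equivOfCardEq hcard.symm
  refine ⟨fun i => f (e i), ?_⟩
  have hind' : LinearIndependent ℝ (fun i' : ι => fun i : ι => a i (f (e i'))) :=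
    hind.comp e e.injective
  have hu : IsUnit (Matrix.of fun i i' : ι => a i (f (e i'))) := by
    rw [← Matrix.linearIndependent_cols_iff_isUnit]
    exact hind'
  rw [Matrix.isUnit_iff_isUnit_det] at hu
  exact hu.ne_zero

end Pool.Agent.MNE.H69
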